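import Pool.Agent.Helper63.ST.Defs
import Pool.Agent.Helper50.ST.RK
import Pool.Agent.Helper44.ST.Index
import Pool.Agent.Helper71.ST.UnipTF

set_option autoImplicit false

namespace Pool.Agent.ST

theorem opProd_cons {G B : Type} [Group G] [AddCommGroup B] (ρ : G →* AddMonoid.End B)
    (g : G) (l : List G) (b : B) :
    opProd ρ (g :: l) b = ρ g (opProd ρ l b) - opProd ρ l b := by
  have : opProd ρ (g :: l) = (ρ g - 1) * opProd ρ l := by
    simp [opProd]
  rw [this]
  rfl

theorem opProd_append {G B : Type} [Group G] [AddCommGroup B] (ρ : G →* AddMonoid.End B)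
    (l l' : List G) (b : B) :
    opProd ρ (l ++ l') b = opProd ρ l (opProd ρ l' b) := by
  have : opProd ρ (l ++ l') = opProd ρ l * opProd ρ l' := by
    simp [opProd]
  rw [this]
  rfl

/-- an equivariant map commutes with `opProd` -/
theorem opProd_map {G B C : Type} [Group G] [AddCommGroup B] [AddCommGroup C]
    {ρ : G →* AddMonoid.End B} {σ : G →* AddMonoid.End C} (φ : B →+ C)
    (h : ∀ g b, φ (ρ g b) = σ g (φ b)) (l : List G) (b : B) :
    φ (opProd ρ l b) = opProd σ l (φ b) := by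
  induction l generalizing b with
  | nil => rfl
  | cons g l ih => rw [opProd_cons, opProd_cons, map_sub, h, ih]

/-- restriction of an action to an invariant subgroup -/
def resAct {G B : Type} [Group G] [AddCommGroup B] (ρ : G →* AddMonoid.End B)
    (C : AddSubgroup B) (hC : ∀ g, ∀ b ∈ C, ρ g b ∈ C) : G →* AddMonoid.End C where
  toFun g := ((ρ g).comp C.subtype).codRestrict C (fun b => hC g b b.2)
  map_one' := by
    refine AddMonoidHom.ext fun b => Subtype.ext ?_
    change ρ 1 (b : B) = (b : B)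
    rw [map_one]
    rfl
  map_mul' g h := by
    refine AddMonoidHom.ext fun b => Subtype.ext ?_
    change ρ (g * h) (b : B) = ρ g (ρ h (b : B))
    rw [map_mul]
    rfl

theorem resAct_coe {G B : Type} [Group G] [AddCommGroup B] (ρ : G →* AddMonoid.End B)
    (C : AddSubgroup B) (hC : ∀ g, ∀ b ∈ C, ρ g b ∈ C) (g : G) (b : C) :
    ((resAct ρ C hC g b : C) : B) = ρ g (b : B) := rfl

/-- the action on the quotient by an invariant subgroup -/
def quoAct {G B : Type} [Group G] [AddCommGroup B] (ρ : G →* AddMonoid.End B)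
    (C : AddSubgroup B) (hC : ∀ g, ∀ b ∈ C, ρ g b ∈ C) : G →* AddMonoid.End (B ⧸ C) where
  toFun g := QuotientAddGroup.map C C (ρ g) (fun b hb => hC g b hb)
  map_one' := by
    refine AddMonoidHom.ext fun b => ?_
    obtain ⟨b, rfl⟩ := QuotientAddGroup.mk_surjective b
    change (QuotientAddGroup.mk (ρ 1 b) : B ⧸ C) = _
    rw [map_one]
    rfl
  map_mul' g h := by
    refine AddMonoidHom.ext fun b => ?_
    obtain ⟨b, rfl⟩ := QuotientAddGroup.mk_surjective b
    change (QuotientAddGroup.mk (ρ (g * h) b) : B ⧸ C) = QuotientAddGroup.mk (ρ g (ρ h b))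
    rw [map_mul]
    rfl

theorem quoAct_mk {G B : Type} [Group G] [AddCommGroup B] (ρ : G →* AddMonoid.End B)
    (C : AddSubgroup B) (hC : ∀ g, ∀ b ∈ C, ρ g b ∈ C) (g : G) (b : B) :
    quoAct ρ C hC g (QuotientAddGroup.mk b) = QuotientAddGroup.mk (ρ g b) := rfl

theorem resAct_opProd {G B : Type} [Group G] [AddCommGroup B] (ρ : G →* AddMonoid.End B)
    (C : AddSubgroup B) (hC : ∀ g, ∀ b ∈ C, ρ g b ∈ C) (l : List G) (b : C) :
    ((opProd (resAct ρ C hC) l b : C) : B) = opProd ρ l (b : B) :=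
  opProd_map (ρ := resAct ρ C hC) (σ := ρ) C.subtype (fun _ _ => rfl) l b

theorem quoAct_opProd {G B : Type} [Group G] [AddCommGroup B] (ρ : G →* AddMonoid.End B)
    (C : AddSubgroup B) (hC : ∀ g, ∀ b ∈ C, ρ g b ∈ C) (l : List G) (b : B) :
    opProd (quoAct ρ C hC) l (QuotientAddGroup.mk b) = QuotientAddGroup.mk (opProd ρ l b) :=
  (opProd_map (ρ := ρ) (σ := quoAct ρ C hC) (QuotientAddGroup.mk' C) (fun _ _ => rfl) l b).symm

/-- transfer of the bound to the normal subgroup of ST-7 -/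
theorem unip_of_bound {f : ℕ → ℕ} {G B : Type} [Group G] [Group.IsSolvable G] [AddCommGroup B]
    {r : ℕ} (hu : UnipBound f B r) (ρ : G →* AddMonoid.End B) {H : Subgroup G}
    (hH : ∀ K : Subgroup G, K.index ≠ 0 → K.index ≤ f r → H ≤ K)
    (l : List G) (hl : l.length = r) (hm : ∀ h ∈ l, h ∈ ⁅H, H⁆) : opProd ρ l = 0 := by
  obtain ⟨K, h0, h1, h2⟩ := hu G ρ
  exact h2 l hl fun h hh => Subgroup.commutator_mono (hH K h0 h1) (hH K h0 h1) (hm h hh)

/-- the statement of ST-5 -/
def UnipElementary : Prop :=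
  ∀ {f : ℕ → ℕ} (_ : MalcevBound f) {B : Type} [AddCommGroup B] {r : ℕ}
    (_ : RankLE B r) {p : ℕ} (_ : p.Prime) (_ : ∀ b : B, p • b = 0),
    UnipBound f B r

/-- the statement of ST-6c -/
def UnipDivisible : Prop :=
  ∀ {f : ℕ → ℕ} (_ : MalcevBound f) {B : Type} [AddCommGroup B] {r : ℕ}
    (_ : RankLE B r) {p : ℕ} (_ : p.Prime) (_ : ∀ b : B, ∃ k : ℕ, p ^ k • b = 0)
    (_ : ∀ b : B, ∃ c, p • c = b), UnipBound f B r

/-- ST-8, with the statements of ST-3b, ST-5, ST-6c as hypotheses -/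
theorem exists_nilData_of (hmal : ∃ f : ℕ → ℕ, MalcevBound f)
    (unip_elementary : UnipElementary) (unip_divisible : UnipDivisible)
    {G B : Type} [Group G] [Group.FG G] [Group.IsSolvable G]
    [AddCommGroup B] (ρ : G →* AddMonoid.End B) {r : ℕ} (hr : RankLE B r) :
    ∃ H : Subgroup G, H.Normal ∧ H.FiniteIndex ∧ NilData ρ ⁅H, H⁆ r := by
  obtain ⟨f, hf⟩ := hmal
  obtain ⟨H, hN, hF, hH⟩ := exists_le_of_index_le G (f r)
  refine ⟨H, hN, hF, ?_, ?_, ?_⟩
  · intro l hl hm b
    set T := AddCommGroup.torsion B with hT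
    have hTs : ∀ g, ∀ b ∈ T, ρ g b ∈ T := by
      intro g b hb
      exact (ρ g).isOfFinAddOrder hb
    have hq : RankLE (B ⧸ T) r := hr.quotient T
    have ht : ∀ (n : ℕ) (b : B ⧸ T), 0 < n → n • b = 0 → b = 0 := by
      intro n b hn hb
      obtain ⟨b, rfl⟩ := QuotientAddGroup.mk_surjective b
      have hb' : n • b ∈ T := by
        rw [← QuotientAddGroup.eq_zero_iff]
        exact hb
      rw [QuotientAddGroup.eq_zero_iff]
      have : IsOfFinAddOrder (n • b) := hb'
      exact (isOfFinAddOrder_nsmul.1 this).resolve_right hn.ne'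
    have h0 := unip_of_bound (unip_torsionfree hf hq ht) (quoAct ρ T hTs) hH l hl hm
    have h1 := quoAct_opProd ρ T hTs l b
    rw [h0] at h1
    have h2 : (QuotientAddGroup.mk (opProd ρ l b) : B ⧸ T) = 0 := h1.symm
    rw [QuotientAddGroup.eq_zero_iff] at h2
    exact h2
  · intro p hp l hl hm b hb
    set T := AddCommGroup.torsion B with hT
    have hTs : ∀ g, ∀ b ∈ T, ρ g b ∈ T := by
      intro g b hb
      exact (ρ g).isOfFinAddOrder hb
    set σ := resAct ρ T hTs with hσ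
    set P : AddSubgroup T := (nsmulAddMonoidHom p : T →+ T).range with hP
    have hPs : ∀ g, ∀ b ∈ P, σ g b ∈ P := by
      rintro g _ ⟨c, rfl⟩
      exact ⟨σ g c, by simp⟩
    have hq : RankLE (T ⧸ P) r := (hr.addSubgroup T).quotient P
    have ht : ∀ b : T ⧸ P, p • b = 0 := by
      intro b
      obtain ⟨b, rfl⟩ := QuotientAddGroup.mk_surjective b
      have : (QuotientAddGroup.mk (p • b) : T ⧸ P) = 0 := by
        rw [QuotientAddGroup.eq_zero_iff]
        exact ⟨b, rfl⟩
      exact this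
    have h0 := unip_of_bound (unip_elementary hf hq hp ht) (quoAct σ P hPs) hH l hl hm
    have h1 := quoAct_opProd σ P hPs l ⟨b, hb⟩
    rw [h0] at h1
    have h2 : (QuotientAddGroup.mk (opProd σ l ⟨b, hb⟩) : T ⧸ P) = 0 := h1.symm
    rw [QuotientAddGroup.eq_zero_iff] at h2
    obtain ⟨c, hc⟩ := h2
    refine ⟨c, c.2, ?_⟩
    have h3 := resAct_opProd ρ T hTs l ⟨b, hb⟩
    rw [← hσ, ← hc] at h3
    exact h3.symm
  · intro p hp D hDs hD1 hD2 l hl hm b hb
    have hq : RankLE D r := hr.addSubgroup D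
    have h1 : ∀ b : D, ∃ k : ℕ, p ^ k • b = 0 := by
      rintro ⟨b, hb⟩
      obtain ⟨k, hk⟩ := hD1 b hb
      exact ⟨k, Subtype.ext hk⟩
    have h2 : ∀ b : D, ∃ c, p • c = b := by
      rintro ⟨b, hb⟩
      obtain ⟨c, hc, hcb⟩ := hD2 b hb
      exact ⟨⟨c, hc⟩, Subtype.ext hcb⟩
    have h0 := unip_of_bound (unip_divisible hf hq hp h1 h2) (resAct ρ D hDs) hH l hl hm
    have h3 := resAct_opProd ρ D hDs l ⟨b, hb⟩
    rw [h0] at h3
    exact h3.symm

end Pool.Agent.ST
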