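import Pool.Agent.Helper63.ST.Defs

set_option autoImplicit false

namespace Pool.Agent.ST

namespace ST9

theorem opProd_append {G B : Type} [Group G] [AddCommGroup B] (ρ : G →* AddMonoid.End B)
    (l l' : List G) (b : B) :
    opProd ρ (l ++ l') b = opProd ρ l (opProd ρ l' b) := by
  have : opProd ρ (l ++ l') = opProd ρ l * opProd ρ l' := by
    simp [opProd]
  rw [this]
  rfl

/-- split off the last `n` factors -/
theorem split_last {G : Type} {m n : ℕ} (l : List G) (h : l.length = m + n) :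
    ∃ l₁ l₂ : List G, l = l₁ ++ l₂ ∧ l₁.length = m ∧ l₂.length = n :=
  ⟨l.take m, l.drop m, (List.take_append_drop m l).symm, by simp [h], by simp [h]⟩

theorem finite_ptor {B : Type} [AddCommGroup B] {r : ℕ} (hr : RankLE B r) (p : ℕ) (hp : 0 < p) :
    {b : B | p • b = 0}.Finite := by
  classical
  by_contra hinf
  obtain ⟨s, hs, hcard⟩ := (Set.not_finite.1 hinf).exists_subset_card_eq (p ^ r + 1)
  obtain ⟨t, ht, hts⟩ := hr s
  have hK : ∀ x ∈ t, p • x = 0 := by
    intro x hx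
    have h1 : x ∈ AddSubgroup.closure (s : Set B) := by
      rw [← hts]
      exact AddSubgroup.subset_closure hx
    have h2 : AddSubgroup.closure (s : Set B) ≤ (nsmulAddMonoidHom p : B →+ B).ker := by
      rw [AddSubgroup.closure_le]
      intro y hy
      exact hs hy
    exact h2 h1
  let F : (t → Fin p) → B := fun f => ∑ i, (f i : ℕ) • (i : B)
  have hsub : s ⊆ Finset.univ.image F := by
    intro x hx
    have h1 : x ∈ AddSubgroup.closure (t : Set B) := by
      rw [hts]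
      exact AddSubgroup.subset_closure hx
    have h2 : x ∈ Submodule.span ℤ (t : Set B) := by
      rw [← Submodule.mem_toAddSubgroup, Submodule.span_int_eq_addSubgroupClosure]
      exact h1
    rw [Submodule.mem_span_finset] at h2
    obtain ⟨f, -, hf⟩ := h2
    rw [Finset.mem_image]
    have hp0 : (0 : ℤ) < p := by exact_mod_cast hp
    have hb : ∀ i, (f i % (p : ℤ)).toNat < p := by
      intro i
      have h3 := Int.emod_lt_of_pos (f i) hp0
      have h4 := Int.emod_nonneg (f i) hp0.ne'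
      omega
    refine ⟨fun i => ⟨(f i % (p : ℤ)).toNat, hb i⟩, Finset.mem_univ _, ?_⟩
    have h5 : ∀ i ∈ t, ((f i % (p : ℤ)).toNat) • i = f i • i := by
      intro i hi
      have h4 := Int.emod_nonneg (f i) hp0.ne'
      have h6 : (((f i % (p : ℤ)).toNat : ℕ) : ℤ) = f i % (p : ℤ) := Int.toNat_of_nonneg h4
      rw [← natCast_zsmul, h6, Int.emod_def, sub_smul, mul_comm, mul_smul, natCast_zsmul,
        hK i hi, smul_zero, sub_zero]
    rw [← hf]
    change ∑ i : t, ((f i % (p : ℤ)).toNat) • (i : B) = _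
    rw [← Finset.sum_coe_sort t (fun i => f i • i)]
    exact Finset.sum_congr rfl fun i _ => h5 i i.2
  have h1 := Finset.card_le_card hsub
  have h2 := Finset.card_image_le (s := (Finset.univ : Finset (t → Fin p))) (f := F)
  have h3 : (Finset.univ : Finset (t → Fin p)).card = p ^ t.card := by
    rw [Finset.card_univ]
    simp
  have h4 : p ^ t.card ≤ p ^ r := Nat.pow_le_pow_right hp ht
  omega

/-- `p ^ n` times the `p`-component -/
def Dp (B : Type) [AddCommGroup B] (p n : ℕ) : AddSubgroup B where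
  carrier := {b | ∃ c : B, (∃ k : ℕ, p ^ k • c = 0) ∧ p ^ n • c = b}
  zero_mem' := ⟨0, ⟨0, by simp⟩, by simp⟩
  add_mem' := by
    rintro _ _ ⟨c, ⟨k, hk⟩, rfl⟩ ⟨d, ⟨m, hm⟩, rfl⟩
    refine ⟨c + d, ⟨k + m, ?_⟩, by rw [smul_add]⟩
    rw [smul_add, pow_add, mul_comm, mul_smul, hk, mul_comm, mul_smul, hm]
    simp
  neg_mem' := by
    rintro _ ⟨c, ⟨k, hk⟩, rfl⟩
    exact ⟨-c, ⟨k, by rw [smul_neg, hk, neg_zero]⟩, by rw [smul_neg]⟩

theorem exists_divisible {B : Type} [AddCommGroup B] {r : ℕ} (hr : RankLE B r) (p : ℕ)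
    (hp : 0 < p) : ∃ n, ∀ b ∈ Dp B p n, ∃ c ∈ Dp B p n, p • c = b := by
  classical
  have hfin := finite_ptor hr p hp
  -- for every element of the `p`-torsion choose a witness
  have hmono : ∀ m n, m ≤ n → Dp B p n ≤ Dp B p m := by
    rintro m n hmn _ ⟨c, ⟨k, hk⟩, rfl⟩
    obtain ⟨d, rfl⟩ := Nat.exists_eq_add_of_le hmn
    refine ⟨p ^ d • c, ⟨k, ?_⟩, ?_⟩
    · rw [← mul_smul, mul_comm, mul_smul, hk, smul_zero]
    · rw [← mul_smul, ← pow_add]
  have hch : ∀ b : B, ∃ n, b ∈ Dp B p n → ∀ m, b ∈ Dp B p m := by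
    intro b
    by_cases h : ∀ m, b ∈ Dp B p m
    · exact ⟨0, fun _ => h⟩
    · push Not at h
      obtain ⟨m, hm⟩ := h
      exact ⟨m, fun h => absurd h hm⟩
  choose N hN using hch
  refine ⟨hfin.toFinset.sup N, ?_⟩
  set n := hfin.toFinset.sup N with hn
  have key : ∀ b : B, p • b = 0 → b ∈ Dp B p n → ∀ m, b ∈ Dp B p m := by
    intro b hb hbn
    apply hN b
    apply hmono _ _ _ hbn
    exact Finset.le_sup (f := N) (by simpa using hb)
  have main : ∀ j : ℕ, ∀ x ∈ Dp B p n, p ^ j • x = 0 → ∃ c ∈ Dp B p n, p • c = x := by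
    intro j
    induction j with
    | zero =>
      intro x _ hx
      refine ⟨0, (Dp B p n).zero_mem, ?_⟩
      simpa using hx.symm
    | succ j ih =>
      intro x hx hx0
      have h1 : p ^ j • x ∈ Dp B p n := (Dp B p n).nsmul_mem hx _
      have h2 : p • (p ^ j • x) = 0 := by
        rw [← mul_smul, ← pow_succ', hx0]
      obtain ⟨z, ⟨k, hk⟩, hz⟩ := key _ h2 h1 (j + 1 + n)
      have h3 : p ^ n • z ∈ Dp B p n := ⟨z, ⟨k, hk⟩, rfl⟩
      have h4 : p ^ j • (x - p • (p ^ n • z)) = 0 := by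
        rw [smul_sub, ← hz, sub_eq_zero]
        simp only [← mul_smul]
        congr 1
        ring
      obtain ⟨c, hc, hc2⟩ := ih (x - p • (p ^ n • z))
        ((Dp B p n).sub_mem hx ((Dp B p n).nsmul_mem h3 p)) h4
      refine ⟨c + p ^ n • z, (Dp B p n).add_mem hc h3, ?_⟩
      rw [smul_add, hc2]
      abel
  rintro b hb
  obtain ⟨c, ⟨k, hk⟩, hcb⟩ := id hb
  refine main k b hb ?_
  rw [← hcb, ← mul_smul, mul_comm, mul_smul, hk, smul_zero]

end ST9

open ST9

/-- ST-9 -/
theorem NilData.exists_nil {G B : Type} [Group G] [AddCommGroup B] {ρ : G →* AddMonoid.End B}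
    {r : ℕ} (hr : RankLE B r) {M : Subgroup G} (hM : NilData ρ M r) (P : Finset ℕ)
    (hP : ∀ p : ℕ, p.Prime → p ∉ P → ∀ (b : B) (k : ℕ), p ^ k • b = 0 →
      ∃ c : B, IsOfFinAddOrder c ∧ b = p • c) :
    ∃ n, ∀ l : List G, l.length = n → (∀ h ∈ l, h ∈ M) → opProd ρ l = 0 := by
  classical
  -- choice of `n_p`
  have hA : ∀ p : ℕ, ∃ n, (p.Prime → ∀ b ∈ Dp B p n, ∃ c ∈ Dp B p n, p • c = b) ∧
      (p ∉ P → n = 0) := by
    intro p
    by_cases hpP : p ∈ P
    · by_cases hp : p.Prime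
      · obtain ⟨n, hn⟩ := exists_divisible hr p hp.pos
        exact ⟨n, fun _ => hn, fun h => absurd hpP h⟩
      · exact ⟨0, fun h => absurd h hp, fun _ => rfl⟩
    · refine ⟨0, ?_, fun _ => rfl⟩
      rintro hp b ⟨c, ⟨k, hk⟩, hc⟩
      have hc' : c = b := by simpa using hc
      subst hc'
      obtain ⟨d, -, hd⟩ := hP p hp hpP c k hk
      refine ⟨d, ⟨d, ⟨k + 1, ?_⟩, by simp⟩, hd.symm⟩
      rw [pow_succ, mul_smul, ← hd, hk]
  choose N hN1 hN2 using hA
  set n0 := P.sup N with hn0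
  have hle : ∀ p, N p ≤ n0 := by
    intro p
    by_cases h : p ∈ P
    · exact Finset.le_sup (f := N) h
    · rw [hN2 p h]
      exact Nat.zero_le _
  -- `j * r` operators map the `p`-component into `p ^ j` times the `p`-component
  have hB : ∀ p : ℕ, p.Prime → ∀ j : ℕ, ∀ l : List G, l.length = j * r → (∀ h ∈ l, h ∈ M) →
      ∀ b : B, (∃ k : ℕ, p ^ k • b = 0) → opProd ρ l b ∈ Dp B p j := by
    intro p hp j
    induction j with
    | zero =>
      intro l hl _ b hb
      have hl0 : l = [] := by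
        apply List.length_eq_zero_iff.1
        omega
      subst hl0
      exact ⟨b, hb, by simp [opProd]⟩
    | succ j ih =>
      intro l hl hm b hb
      obtain ⟨l₁, l₂, rfl, h1, h2⟩ := split_last (m := r) (n := j * r) l (by rw [hl]; ring)
      obtain ⟨c, ⟨k, hk⟩, hc⟩ := ih l₂ h2 (fun h hh => hm h (by simp [hh])) b hb
      have hcf : IsOfFinAddOrder c :=
        isOfFinAddOrder_iff_nsmul_eq_zero.2 ⟨p ^ k, pow_pos hp.pos k, hk⟩
      obtain ⟨d, hd, hdc⟩ := hM.modp p hp l₁ h1 (fun h hh => hm h (by simp [hh])) c hcf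
      refine ⟨d, ⟨k + 1, ?_⟩, ?_⟩
      · rw [pow_succ, mul_smul, ← hdc, ← map_nsmul, hk, map_zero]
      · rw [opProd_append, ← hc, map_nsmul, hdc, pow_succ, mul_smul]
  -- all `p`-components are killed
  have hC : ∀ p : ℕ, p.Prime → ∀ l : List G, l.length = (n0 + 1) * r → (∀ h ∈ l, h ∈ M) →
      ∀ b : B, (∃ k : ℕ, p ^ k • b = 0) → opProd ρ l b = 0 := by
    intro p hp l hl hm b hb
    obtain ⟨l₀, l', rfl, h0, h'⟩ := split_last (m := (n0 - N p) * r) (n := r + N p * r) l (by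
      rw [hl]
      have : n0 + 1 = (n0 - N p) + (1 + N p) := by have := hle p; omega
      rw [this]
      ring)
    obtain ⟨l₁, l₂, rfl, h1, h2⟩ := split_last (m := r) (n := N p * r) l' h'
    rw [opProd_append, opProd_append]
    have hD := hB p hp (N p) l₂ h2 (fun h hh => hm h (by simp [hh])) b hb
    rw [hM.div p hp (Dp B p (N p)) ?_ ?_ (hN1 p hp) l₁ h1 (fun h hh => hm h (by simp [hh])) _ hD,
      map_zero]
    · rintro g _ ⟨c, ⟨k, hk⟩, rfl⟩
      exact ⟨ρ g c, ⟨k, by rw [← map_nsmul, hk, map_zero]⟩, by rw [map_nsmul]⟩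
    · rintro _ ⟨c, ⟨k, hk⟩, rfl⟩
      exact ⟨k, by rw [← mul_smul, mul_comm, mul_smul, hk, smul_zero]⟩
  -- the torsion subgroup is killed
  have hT : ∀ l : List G, l.length = (n0 + 1) * r → (∀ h ∈ l, h ∈ M) →
      ∀ n : ℕ, ∀ b : B, 0 < n → n • b = 0 → opProd ρ l b = 0 := by
    intro l hl hm n
    induction n using Nat.recOnPosPrimePosCoprime with
    | zero => intro b h; exact absurd h (lt_irrefl 0)
    | one => intro b _ hb; rw [one_smul] at hb; rw [hb, map_zero]
    | prime_pow p k hp hk => intro b _ hb; exact hC p hp l hl hm b ⟨k, hb⟩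
    | coprime u v hu hv huv ih1 ih2 =>
      intro x _ hx
      have hbez : (1 : ℤ) = u * Nat.gcdA u v + v * Nat.gcdB u v := by
        rw [← Nat.gcd_eq_gcd_ab, huv]
        rfl
      have hx2 : x = (Nat.gcdA u v) • (u • x) + (Nat.gcdB u v) • (v • x) := by
        conv_lhs => rw [← one_zsmul x, hbez]
        rw [add_smul, mul_comm, mul_smul, natCast_zsmul, mul_comm, mul_smul, natCast_zsmul]
      rw [hx2, map_add, map_zsmul, map_zsmul,
        ih2 (u • x) (by omega) (by rw [← mul_smul, mul_comm, hx]),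
        ih1 (v • x) (by omega) (by rw [← mul_smul, hx])]
      simp
  refine ⟨(n0 + 1) * r + r, fun l hl hm => ?_⟩
  obtain ⟨l₁, l₂, rfl, h1, h2⟩ := split_last l hl
  refine AddMonoidHom.ext fun b => ?_
  refine (opProd_append ρ l₁ l₂ b).trans ?_
  have ht := hM.tor l₂ h2 (fun h hh => hm h (by simp [hh])) b
  obtain ⟨n, hn, hnb⟩ := isOfFinAddOrder_iff_nsmul_eq_zero.1 ht
  exact hT l₁ h1 (fun h hh => hm h (by simp [hh])) n _ hn hnb

end Pool.Agent.ST
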